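import Pool.Agent.R676.Cox.Key

/-!
# MP_af48a1_al, Q1: the strong exchange condition for twisted involutions holds

For every Coxeter system `(W,S)` (any set `S`, finite or infinite) and every `W`-conjugacy class
`K` of twisted involutions in `W⁺ = W ⋊ Aut(W,S)`: if `ℓ(rwr) = ℓ(w)` implies `rwr = w` for all
reflections `r` and all `w ∈ K`, then `ℓ(rwr) < ℓ(w)` implies `rwr < w` in the Bruhat order for
all reflections `r` and all `w ∈ K`.
-/

set_option autoImplicit false

namespace Pool.Agent.Results.MP_af48a1_al.StrongExchange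

open CoxeterSystem
open Pool.Agent.R676.Cox (IsAutS TwClass key)

universe u v

variable {B : Type u} {M : CoxeterMatrix B} {W : Type v} [Group W]

/-- `Aut(W,S)`: the group of the automorphisms of `W` that map the set `S` of simple reflections
onto itself. -/
def AutS (cs : CoxeterSystem M W) : Subgroup (MulAut W) where
  carrier := {θ | θ '' Set.range cs.simple = Set.range cs.simple}
  one_mem' := by simp
  mul_mem' := by
    intro a b ha hb
    change (⇑(a * b)) '' _ = _
    change (⇑a) '' _ = _ at ha
    change (⇑b) '' _ = _ at hb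
    rw [MulAut.coe_mul, Set.image_comp, hb, ha]
  inv_mem' := by
    intro a ha
    exact IsAutS.inv (cs := cs) ha

/-- The extended group `W⁺ = W ⋊ Aut(W,S)`; its elements are pairs `(x, θ)` and the product is
`(x, α)(y, β) = (x α(y), αβ)`. -/
abbrev WPlus (cs : CoxeterSystem M W) : Type v := W ⋊[(AutS cs).subtype] (AutS cs)

/-- The inclusion of `W` in `W⁺`, sending `x` to `(x, id)`. -/
abbrev emb (cs : CoxeterSystem M W) : W →* WPlus cs := SemidirectProduct.inl

/-- The length on `W⁺`: `ℓ(x, θ) = ℓ(x)`. -/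
noncomputable def len (cs : CoxeterSystem M W) (w : WPlus cs) : ℕ := cs.length w.left

/-- One step `u → v` of the Bruhat order of `W`: `v = tu` for a reflection `t`, and
`ℓ(u) < ℓ(v)`. -/
def BruhatStep (cs : CoxeterSystem M W) (u v : W) : Prop :=
  ∃ t : W, cs.IsReflection t ∧ v = t * u ∧ cs.length u < cs.length v

/-- The Bruhat order of `W`: `u ≤ v` if there is a finite (possibly empty) chain of Bruhat steps
from `u` to `v`. -/
def BruhatLE (cs : CoxeterSystem M W) (u v : W) : Prop := Relation.ReflTransGen (BruhatStep cs) u v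

/-- The Bruhat order of `W⁺`: `(x, θ) ≤ (x', θ')` if and only if `θ = θ'` and `x ≤ x'`. -/
def PlusLE (cs : CoxeterSystem M W) (w w' : WPlus cs) : Prop :=
  w.right = w'.right ∧ BruhatLE cs w.left w'.left

/-- The strict Bruhat order of `W⁺`. -/
def PlusLT (cs : CoxeterSystem M W) (w w' : WPlus cs) : Prop := PlusLE cs w w' ∧ w ≠ w'

/-- `K` is a `W`-conjugacy class contained in `I⁺ = {w ∈ W⁺ : w² = 1}`: the orbit of some
`x₀ ∈ I⁺` under conjugation by `W`. -/
def IsInvolutionClass (cs : CoxeterSystem M W) (K : Set (WPlus cs)) : Prop :=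
  ∃ x₀ : WPlus cs, x₀ ^ 2 = 1 ∧ K = {w | ∃ u : W, w = emb cs u * x₀ * (emb cs u)⁻¹}

lemma refl_conj_left (cs : CoxeterSystem M W) (w : WPlus cs) (r : W) :
    (emb cs r * w * emb cs r).left = r * w.left * (w.right : MulAut W) r := by
  simp

lemma refl_conj_right (cs : CoxeterSystem M W) (w : WPlus cs) (r : W) :
    (emb cs r * w * emb cs r).right = w.right := by
  simp

/-- Translation to twisted conjugation in `W`. -/
lemma toTw {cs : CoxeterSystem M W} {K : Set (WPlus cs)} (hK : IsInvolutionClass cs K)
    (h1 : ∀ r : W, cs.IsReflection r → ∀ w ∈ K,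
      len cs (emb cs r * w * emb cs r) = len cs w → emb cs r * w * emb cs r = w) :
    ∃ (θ : AutS cs) (K' : Set W), TwClass cs (θ : MulAut W) K' ∧
      ∀ w ∈ K, w.right = θ ∧ w.left ∈ K' := by
  obtain ⟨x₀, hx₀, rfl⟩ := hK
  have hright : x₀.right * x₀.right = 1 := by
    have := congrArg SemidirectProduct.right hx₀
    rw [pow_two] at this
    simpa using this
  have hleft : x₀.left * (x₀.right : MulAut W) x₀.left = 1 := by
    have := congrArg SemidirectProduct.left hx₀
    rw [pow_two] at this
    simpa using this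
  have hsq : ∀ w : W, (x₀.right : MulAut W) ((x₀.right : MulAut W) w) = w := by
    intro w
    have h2 : ((x₀.right : MulAut W) * (x₀.right : MulAut W)) w = w := by
      rw [← Subgroup.coe_mul, hright]
      rfl
    exact h2
  have hel : ∀ u : W, (emb cs u * x₀ * (emb cs u)⁻¹).left =
      u * x₀.left * (x₀.right : MulAut W) u⁻¹ := by
    intro u
    rw [← map_inv]
    simp
  have her : ∀ u : W, (emb cs u * x₀ * (emb cs u)⁻¹).right = x₀.right := by
    intro u
    rw [← map_inv]
    simp
  refine ⟨x₀.right, {x | ∃ u : W, x = u * x₀.left * (x₀.right : MulAut W) u⁻¹}, ?_, ?_⟩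
  · refine ⟨x₀.right.2, hsq, ?_, ?_, ?_⟩
    · rintro x ⟨u, rfl⟩
      rw [map_mul, map_mul, hsq]
      calc u * x₀.left * (x₀.right : MulAut W) u⁻¹ *
          ((x₀.right : MulAut W) u * (x₀.right : MulAut W) x₀.left * u⁻¹)
          = u * x₀.left * ((x₀.right : MulAut W) u⁻¹ * (x₀.right : MulAut W) u) *
            (x₀.right : MulAut W) x₀.left * u⁻¹ := by simp only [mul_assoc]
        _ = u * (x₀.left * (x₀.right : MulAut W) x₀.left) * u⁻¹ := by
            rw [← map_mul, inv_mul_cancel, map_one, mul_one]; simp only [mul_assoc]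
        _ = 1 := by rw [hleft, mul_one, mul_inv_cancel]
    · rintro x ⟨u, rfl⟩ g
      refine ⟨g * u, ?_⟩
      rw [mul_inv_rev, map_mul]
      simp only [mul_assoc]
    · rintro x ⟨u, rfl⟩ r hr hlen
      have h2 := h1 r hr _ ⟨u, rfl⟩ (by
        rw [len, len, refl_conj_left, hel, her]
        exact hlen)
      have h3 := congrArg SemidirectProduct.left h2
      rw [refl_conj_left, hel, her] at h3
      exact h3
  · rintro w ⟨u, rfl⟩
    exact ⟨her u, u, hel u⟩

/-- **Main result.** Let `K` be a `W`-conjugacy class of twisted involutions such that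
`ℓ(rwr) = ℓ(w)` implies `rwr = w` for all `r ∈ R`, `w ∈ K`. Then `ℓ(rwr) < ℓ(w)` implies
`rwr < w` in the Bruhat order, for all `r ∈ R`, `w ∈ K`. -/
theorem result (cs : CoxeterSystem M W) (K : Set (WPlus cs)) (hK : IsInvolutionClass cs K)
    (h1 : ∀ r : W, cs.IsReflection r → ∀ w ∈ K,
      len cs (emb cs r * w * emb cs r) = len cs w → emb cs r * w * emb cs r = w) :
    ∀ r : W, cs.IsReflection r → ∀ w ∈ K,
      len cs (emb cs r * w * emb cs r) < len cs w → PlusLT cs (emb cs r * w * emb cs r) w := by
  intro r hr w hw hlen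
  obtain ⟨θ, K', hTw, hmem⟩ := toTw hK h1
  obtain ⟨hθ, hwK⟩ := hmem w hw
  have hl : (emb cs r * w * emb cs r).left = r * w.left * (θ : MulAut W) r := by
    rw [refl_conj_left, hθ]
  have hne : r * w.left * (θ : MulAut W) r ≠ w.left := by
    intro h
    rw [len, len, hl, h] at hlen
    omega
  rw [len, len, hl] at hlen
  obtain ⟨t', t'', ht', ht'', hy, hch⟩ := key hTw hwK hr hne
  have hch1 : cs.length (r * w.left * (θ : MulAut W) r) < cs.length (t' * w.left) ∧
      cs.length (t' * w.left) < cs.length w.left := by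
    rcases hch with h | h
    · omega
    · exact h
  refine ⟨⟨refl_conj_right cs w r, ?_⟩, ?_⟩
  · rw [hl]
    have s1 : BruhatStep cs (r * w.left * (θ : MulAut W) r) (t' * w.left) :=
      ⟨t'', ht'', by rw [hy, ← mul_assoc, ht''.mul_self, one_mul], hch1.1⟩
    have s2 : BruhatStep cs (t' * w.left) w.left :=
      ⟨t', ht', by rw [← mul_assoc, ht'.mul_self, one_mul], hch1.2⟩
    exact (Relation.ReflTransGen.single s1).tail s2
  · intro h
    apply hne
    rw [← hl, h]

end Pool.Agent.Results.MP_af48a1_al.StrongExchange
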